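import Pool.Agent.helper22.WC.Spec
import Pool.Agent.helper12.DD.Spec

/-! # Row wc:SKB (MP_baa4d7_al) -/

set_option autoImplicit false

namespace Pool.Agent.WC

open Pool.Agent.helper58.DC Pool.Agent.DI Pool.Agent.DR

theorem SKB (hB1 : Pool.Agent.DI.B1_stmt) (hCPL : Pool.Agent.DD.CPL_stmt) : SKB_stmt := by
  intro G _ _ z hz
  classical
  have : Fintype G := Fintype.ofFinite G
  obtain ⟨hfin, hB⟩ := hB1 G
  set S : Finset (G → ℂ) := hfin.toFinset with hS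
  have hmem : ∀ ψ, ψ ∈ S ↔ ψ ∈ Irr G := fun ψ => by rw [hS, Set.Finite.mem_toFinset]
  have hG : (Nat.card G : ℂ) ≠ 0 := by exact_mod_cast Nat.card_pos.ne'
  let a : (G → ℂ) → ℂ := fun ψ => ∑ x, z x * ψ x
  let f : G → ℂ := fun g => z g⁻¹ - (Nat.card G : ℂ)⁻¹ * ∑ ψ ∈ S, a ψ * ψ g
  have hcl : ∀ g h, f (h * g * h⁻¹) = f g := by
    intro g h
    have e1 : z (h * g * h⁻¹)⁻¹ = z g⁻¹ := by
      have : (h * g * h⁻¹)⁻¹ = h * g⁻¹ * h⁻¹ := by group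
      rw [this, hz]
    have e2 : ∑ ψ ∈ S, a ψ * ψ (h * g * h⁻¹) = ∑ ψ ∈ S, a ψ * ψ g := by
      refine Finset.sum_congr rfl fun ψ hψ => ?_
      rw [(hB ψ ((hmem ψ).1 hψ)).2.1 g h]
    show z (h * g * h⁻¹)⁻¹ - (Nat.card G : ℂ)⁻¹ * ∑ ψ ∈ S, a ψ * ψ (h * g * h⁻¹) =
      z g⁻¹ - (Nat.card G : ℂ)⁻¹ * ∑ ψ ∈ S, a ψ * ψ g
    rw [e1, e2]
  have horth : ∀ χ ∈ Irr G, ∑ g, f g * χ g⁻¹ = 0 := by
    intro χ hχ
    have e1 : ∑ g, z g⁻¹ * χ g⁻¹ = a χ :=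
      Fintype.sum_equiv (Equiv.inv G) _ _ (fun g => rfl)
    have e2 : ∑ g, (∑ ψ ∈ S, a ψ * ψ g) * χ g⁻¹ = a χ * (Nat.card G : ℂ) := by
      simp_rw [Finset.sum_mul]
      rw [Finset.sum_comm]
      have : ∀ ψ ∈ S, ∑ g, a ψ * ψ g * χ g⁻¹ = if ψ = χ then a χ * (Nat.card G : ℂ) else 0 := by
        intro ψ hψ
        have h1 := (hB ψ ((hmem ψ).1 hψ)).2.2.2 χ hχ
        rw [finsum_eq_sum_of_fintype] at h1
        have h2 : ∑ g, a ψ * ψ g * χ g⁻¹ = a ψ * ∑ g, ψ g * χ g⁻¹ := by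
          rw [Finset.mul_sum]
          exact Finset.sum_congr rfl fun g _ => by ring
        rw [h2, h1]
        split_ifs with h
        · rw [h]
        · rw [mul_zero]
      rw [Finset.sum_congr rfl this, Finset.sum_ite_eq' S χ, if_pos ((hmem χ).2 hχ)]
    have e3 : ∑ g, f g * χ g⁻¹ = ∑ g, z g⁻¹ * χ g⁻¹ -
        (Nat.card G : ℂ)⁻¹ * ∑ g, (∑ ψ ∈ S, a ψ * ψ g) * χ g⁻¹ := by
      rw [Finset.mul_sum, ← Finset.sum_sub_distrib]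
      refine Finset.sum_congr rfl fun g _ => ?_
      show (z g⁻¹ - (Nat.card G : ℂ)⁻¹ * ∑ ψ ∈ S, a ψ * ψ g) * χ g⁻¹ = _
      ring
    rw [e3, e1, e2]
    field_simp
    ring
  have hf : f = 0 := hCPL G f hcl horth
  have h1 : z 1 = (Nat.card G : ℂ)⁻¹ * ∑ ψ ∈ S, a ψ * ψ 1 := by
    have h2 := congrFun hf 1
    have h3 : z (1 : G)⁻¹ - (Nat.card G : ℂ)⁻¹ * ∑ ψ ∈ S, a ψ * ψ 1 = 0 := h2
    rw [inv_one] at h3
    exact sub_eq_zero.1 h3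
  rw [finsum_mem_eq_finite_toFinset_sum _ hfin, h1, ← mul_assoc, mul_inv_cancel₀ hG, one_mul]
  refine Finset.sum_congr rfl fun ψ hψ => ?_
  obtain ⟨⟨n, hn, hn1, -⟩, -⟩ := hB ψ ((hmem ψ).1 hψ)
  have hψ1 : ψ 1 ≠ 0 := by
    rw [hn1]
    exact_mod_cast hn.ne'
  unfold cc
  rw [finsum_eq_sum_of_fintype]
  show (∑ x, z x * ψ x) * ψ 1 = _
  field_simp

end Pool.Agent.WC
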